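import Pool.Agent.Work.MP_27623f_ag.Final
import Pool.Agent.Work.MP_27623f_ag.HY.Fam

/-!
MP_27623f_ag, partial answer to Q1 (Watanabe-Yoshida): the F-signature is a difference of two
Hilbert-Kunz multiplicities for every local ring that is the degree zero part of a graded
Gorenstein ring, graded by any abelian group, under a codimension two freeness condition; in
particular for the local rings at the origin of the rings of invariants of `G_m` on hypersurfaces
`F = 0`.  The equality holds exactly for every Frobenius power, before passing to the limit.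
-/

set_option autoImplicit false

namespace Pool.Agent.Results.MP_27623f_ag.GorensteinCover

open Filter Topology Pool.Agent.FSig Pool.Agent.FSig.HY

universe u v w

/-- `c = e_HK(I) = lim length(R / I^{[p^e]}) / p^(e d)`, `d = dim R`. -/
def IsHK (R : Type*) [CommRing R] (p : ℕ) (I : Ideal R) (c : ℝ) : Prop :=
  ∃ d : ℕ, ringKrullDim R = d ∧
    Tendsto (fun e : ℕ => (colen (frobPow I (p ^ e)) : ℝ) / ((p : ℝ) ^ (e * d))) atTop (𝓝 c)

/-- `s = s(R) = lim frk(R^{1/p^e}) / ([k^{1/p^e} : k] p^(e d))`, `d = dim R`. -/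
def IsFSignature (R : Type u) [CommRing R] [IsLocalRing R] (p : ℕ) [ExpChar R p] (s : ℝ) : Prop :=
  ∃ d : ℕ, ringKrullDim R = d ∧
    Tendsto (fun e : ℕ => (freeRank R (RootMod R p e) : ℝ) /
      (rootDegree (IsLocalRing.ResidueField R) (p ^ e) * (p : ℝ) ^ (e * d))) atTop (𝓝 s)

/-- There are `m`-primary ideals `I < J < R` with
`length(R/I^{[q]}) - length(R/J^{[q]}) = frk(R^{1/q}) / [k^{1/q} : k]` for ALL `q = p^e`; hence
`e_HK(I) - e_HK(J) = s(R)`. -/
def IsDifference (R : Type u) [CommRing R] [IsLocalRing R] (p : ℕ) [ExpChar R p] : Prop :=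
  ∃ I J : Ideal R, I < J ∧ J ≠ ⊤ ∧ (∃ N, IsLocalRing.maximalIdeal R ^ N ≤ I) ∧
    (∀ e : ℕ, 0 < rootDegree (IsLocalRing.ResidueField R) (p ^ e) ∧
      (colen (frobPow I (p ^ e)) : ℝ) - colen (frobPow J (p ^ e)) =
        (freeRank R (RootMod R p e) : ℝ) /
          rootDegree (IsLocalRing.ResidueField R) (p ^ e)) ∧
    ∀ a b : ℝ, IsHK R p I a → IsHK R p J b →
      IsFSignature R p (a - b) ∧ ∀ s : ℝ, IsFSignature R p s → a - b = s

theorem criterion {R : Type u} [CommRing R] [IsNoetherianRing R] [IsLocalRing R] (p : ℕ)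
    [Fact p.Prime] [CharP R p] (hF : (frobenius R p).Finite)
    (hR : IsLocalRing.maximalIdeal R ≠ ⊥) {S : Type v} [CommRing S] [IsNoetherianRing S]
    [Algebra R S] {G : Type w} [AddCommGroup G] [DecidableEq G] (𝒜 : G → Submodule R S)
    [GradedAlgebra 𝒜] {n : ℕ} (x : Fin n → S) (δ : Fin n → G) (v : S) (d : G)
    (h : GorCover R 𝒜 x δ v d) : IsDifference R p := by
  obtain ⟨I, J, h1, h2, h3, h4⟩ := exists_pair p hF hR 𝒜 x δ v d h
  have h0 : ∀ e : ℕ, 0 < rootDegree (IsLocalRing.ResidueField R) (p ^ e) :=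
    fun e => rootDegree_pos p e hF
  have h5 : ∀ e : ℕ, (colen (frobPow I (p ^ e)) : ℝ) - colen (frobPow J (p ^ e)) =
      (freeRank R (RootMod R p e) : ℝ) / rootDegree (IsLocalRing.ResidueField R) (p ^ e) := by
    intro e
    have h6 : ((rootDegree (IsLocalRing.ResidueField R) (p ^ e) : ℕ) : ℝ) *
        (colen (frobPow I (p ^ e)) : ℝ) =
        (rootDegree (IsLocalRing.ResidueField R) (p ^ e) : ℝ) *
          (colen (frobPow J (p ^ e)) : ℝ) + (freeRank R (RootMod R p e) : ℝ) := by
      exact_mod_cast h4 e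
    have h7 : ((rootDegree (IsLocalRing.ResidueField R) (p ^ e) : ℕ) : ℝ) ≠ 0 := by
      exact_mod_cast (h0 e).ne'
    rw [eq_div_iff h7]
    linarith [h6]
  refine ⟨I, J, h1, h2, h3, fun e => ⟨h0 e, h5 e⟩, ?_⟩
  rintro a b ⟨da, hda, ha⟩ ⟨db, hdb, hb⟩
  have hdd : db = da := by
    have := hdb.symm.trans hda
    exact_mod_cast this
  subst hdd
  have hsig : Tendsto (fun e : ℕ => (freeRank R (RootMod R p e) : ℝ) /
      (rootDegree (IsLocalRing.ResidueField R) (p ^ e) * (p : ℝ) ^ (e * db))) atTop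
      (𝓝 (a - b)) := by
    refine (ha.sub hb).congr (fun e => ?_)
    rw [← sub_div, h5 e, div_div]
  refine ⟨⟨db, hdb, hsig⟩, ?_⟩
  rintro s ⟨ds, hds, hs⟩
  have hdd' : ds = db := by
    have := hds.symm.trans hdb
    exact_mod_cast this
  subst hdd'
  exact tendsto_nhds_unique hsig hs

/-- `R` is the degree zero part of a graded ring `S` as in `GorCover`. -/
def HasCover (R : Type u) [CommRing R] [IsLocalRing R] : Prop :=
  ∃ (S : Type v) (_ : CommRing S) (_ : IsNoetherianRing S) (_ : Algebra R S) (G : Type w)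
    (_ : AddCommGroup G) (_ : DecidableEq G) (𝒜 : G → Submodule R S) (_ : GradedAlgebra 𝒜)
    (n : ℕ) (x : Fin n → S) (δ : Fin n → G) (v : S) (d : G), GorCover R 𝒜 x δ v d

/-- The ideal `P` of `A` is maximal and the local ring `A_P`, of characteristic `p`, satisfies
`IsDifference`. -/
def DifferenceAt (A : Type u) [CommRing A] (P : Ideal A) (p : ℕ) [Fact p.Prime] : Prop :=
  ∃ (_ : P.IsMaximal) (_ : CharP (Localization.AtPrime P) p),
    IsDifference (Localization.AtPrime P) p

/-- `DifferenceAt` for the subalgebra `k[s]` of `B` and its ideal generated by `s`. -/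
def DifferenceAdjoin (k : Type u) [Field k] (B : Type u) [CommRing B] [Algebra k B] (s : Set B)
    (p : ℕ) [Fact p.Prime] : Prop :=
  DifferenceAt (Algebra.adjoin k s) (Ideal.span {z | (z : B) ∈ s}) p

/-- (1) The criterion: `IsDifference` for every `F`-finite Noetherian local ring `R` of
characteristic `p`, not a field, that is the degree zero part of a graded ring `S` as in
`GorCover`.
(2) Let `k` be an `F`-finite field of characteristic `p`, `a >= 1`, `b >= 2`, `c >= 0`, `f >= 2`,
and let `F` be homogeneous of weight `f` (weights `1` for `x_0, ..., x_a`, `-1` for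
`y_1, ..., y_b`, `0` for `t_1, ..., t_c`) and monic in `x_0` (`Good`).  Then the local ring of
`k[x_i y_j, t_l]`, a subring of `k[x, y, t] / (F)`, at its maximal ideal `(x_i y_j, t_l)`
satisfies `IsDifference` (`gens` is the set of the `x_i y_j` and the `t_l`). -/
theorem result :
    (∀ (R : Type u) [CommRing R] [IsNoetherianRing R] [IsLocalRing R] (p : ℕ) [Fact p.Prime]
      [CharP R p], (frobenius R p).Finite → IsLocalRing.maximalIdeal R ≠ ⊥ →
      HasCover.{u, v, w} R → IsDifference R p) ∧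
    ∀ (k : Type u) [Field k] (p : ℕ) [Fact p.Prime] [CharP k p], (frobenius k p).Finite →
      ∀ a b c f : ℕ, 1 ≤ a → 2 ≤ b → 2 ≤ f →
      ∀ F : MvPolynomial (Option (Var a b c)) k, Good k F f → DifferenceAdjoin k (Hyp k F) (gens k F) p := by
  refine ⟨?_, ?_⟩
  · intro R _ _ _ p _ _ hF hR h
    obtain ⟨S, i1, i2, i3, G, i4, i5, 𝒜, i6, n, x, δ, v, d, h⟩ := h
    exact criterion p hF hR 𝒜 x δ v d h
  intro k _ p _ _ hk a b c f ha hb hf F hF
  obtain ⟨h1, h2, 𝒯, h3, x, δ, v, d, h4, h5, h6, h7, h8⟩ :=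
    hyp_cover k p hk ha hb F f hf hF
  refine ⟨mo_isMaximal k F f hF (by omega), h2, ?_⟩
  exact criterion (R := Localization.AtPrime (mo k F)) p h7 h8 𝒯 x δ v d h4

end Pool.Agent.Results.MP_27623f_ag.GorensteinCover
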