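import Pool.Agent.Work.MP_27623f_ag.SA.Fin

/-!
MP_27623f_ag, partial answer to Q1 (Watanabe-Yoshida): the F-signature is a difference of two
Hilbert-Kunz multiplicities for every F-finite normal local domain `R` of dimension at least two
which has a divisorial symbolic algebra `S = ∑_{n ≥ 0} J^(n) X^n` that is finitely generated and
Gorenstein at the ideal `m + ∑_{n > 0} J^(n) X^n`.  The equality holds exactly for every Frobenius
power, before passing to the limit.
-/

set_option autoImplicit false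

namespace Pool.Agent.Results.MP_27623f_ag.SymbolicAlgebra

open Filter Topology Pool.Agent.FSig Pool.Agent.FSig.SA

universe u

/-- `c = e_HK(I) = lim length(R / I^{[p^e]}) / p^(e d)`, `d = dim R`. -/
def IsHK (R : Type*) [CommRing R] (p : ℕ) (I : Ideal R) (c : ℝ) : Prop :=
  ∃ d : ℕ, ringKrullDim R = d ∧
    Tendsto (fun e : ℕ => (colen (frobPow I (p ^ e)) : ℝ) / ((p : ℝ) ^ (e * d))) atTop (𝓝 c)

/-- `s = s(R) = lim frk(R^{1/p^e}) / ([k^{1/p^e} : k] p^(e d))`, `d = dim R`. -/
def IsFSignature (R : Type u) [CommRing R] [IsLocalRing R] (p : ℕ) [ExpChar R p] (s : ℝ) : Prop :=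
  ∃ d : ℕ, ringKrullDim R = d ∧
    Tendsto (fun e : ℕ => (freeRank R (RootMod R p e) : ℝ) /
      (rootDegree (IsLocalRing.ResidueField R) (p ^ e) * (p : ℝ) ^ (e * d))) atTop (𝓝 s)

/-- There are `m`-primary ideals `I < J < R` with
`length(R/I^{[q]}) - length(R/J^{[q]}) = frk(R^{1/q}) / [k^{1/q} : k]` for ALL `q = p^e`; hence
`e_HK(I) - e_HK(J) = s(R)`. -/
def IsDifference (R : Type u) [CommRing R] [IsLocalRing R] (p : ℕ) [ExpChar R p] : Prop :=
  ∃ I J : Ideal R, I < J ∧ J ≠ ⊤ ∧ (∃ N, IsLocalRing.maximalIdeal R ^ N ≤ I) ∧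
    (∀ e : ℕ, 0 < rootDegree (IsLocalRing.ResidueField R) (p ^ e) ∧
      (colen (frobPow I (p ^ e)) : ℝ) - colen (frobPow J (p ^ e)) =
        (freeRank R (RootMod R p e) : ℝ) /
          rootDegree (IsLocalRing.ResidueField R) (p ^ e)) ∧
    ∀ a b : ℝ, IsHK R p I a → IsHK R p J b →
      IsFSignature R p (a - b) ∧ ∀ s : ℝ, IsFSignature R p s → a - b = s

/-- Let `R` be an `F`-finite Noetherian normal local domain of characteristic `p` and dimension at
least two, `J` a nonzero finitely generated `R`-submodule of the fraction field `K` and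
`S = ∑_{n ≥ 0} J^(n) X^n ⊆ K[X]`, `J^(n) = R :_K (R :_K J^n)`.  If `S` is a finitely generated
`R`-algebra and its localization at `m + ∑_{n > 0} J^(n) X^n` is Gorenstein, then the F-signature
of `R` is a difference of two Hilbert-Kunz multiplicities, exactly for every `q`. -/
theorem result (R : Type u) [CommRing R] [IsDomain R] [IsIntegrallyClosed R] [IsNoetherianRing R]
    [IsLocalRing R] (p : ℕ) [Fact p.Prime] [CharP R p] (hF : (frobenius R p).Finite)
    (hd : 2 ≤ ringKrullDim R) (J : Submodule R (FractionRing R)) (hJ : J.FG) (hJ0 : J ≠ ⊥)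
    (hS : (symAlg J).FG) (hG : Gorenstein (Localization.AtPrime (origin J))) :
    IsDifference R p := by
  obtain ⟨I, J, h1, h2, h3, h4⟩ := exists_pair_sym p hF hd J hJ hJ0 hS hG
  have h0 : ∀ e : ℕ, 0 < rootDegree (IsLocalRing.ResidueField R) (p ^ e) :=
    fun e => rootDegree_pos p e hF
  have h5 : ∀ e : ℕ, (colen (frobPow I (p ^ e)) : ℝ) - colen (frobPow J (p ^ e)) =
      (freeRank R (RootMod R p e) : ℝ) / rootDegree (IsLocalRing.ResidueField R) (p ^ e) := by
    intro e
    have h6 : ((rootDegree (IsLocalRing.ResidueField R) (p ^ e) : ℕ) : ℝ) *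
        (colen (frobPow I (p ^ e)) : ℝ) =
        (rootDegree (IsLocalRing.ResidueField R) (p ^ e) : ℝ) *
          (colen (frobPow J (p ^ e)) : ℝ) + (freeRank R (RootMod R p e) : ℝ) := by
      exact_mod_cast h4 e
    have h7 : ((rootDegree (IsLocalRing.ResidueField R) (p ^ e) : ℕ) : ℝ) ≠ 0 := by
      exact_mod_cast (h0 e).ne'
    rw [eq_div_iff h7]
    linarith [h6]
  refine ⟨I, J, h1, h2, h3, fun e => ⟨h0 e, h5 e⟩, ?_⟩
  rintro a b ⟨da, hda, ha⟩ ⟨db, hdb, hb⟩
  have hdd : db = da := by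
    have := hdb.symm.trans hda
    exact_mod_cast this
  subst hdd
  have hsig : Tendsto (fun e : ℕ => (freeRank R (RootMod R p e) : ℝ) /
      (rootDegree (IsLocalRing.ResidueField R) (p ^ e) * (p : ℝ) ^ (e * db))) atTop
      (𝓝 (a - b)) := by
    refine (ha.sub hb).congr (fun e => ?_)
    rw [← sub_div, h5 e, div_div]
  refine ⟨⟨db, hdb, hsig⟩, ?_⟩
  rintro s ⟨ds, hds, hs⟩
  have hdd' : ds = db := by
    have := hds.symm.trans hdb
    exact_mod_cast this
  subst hdd'
  exact tendsto_nhds_unique hsig hs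

end Pool.Agent.Results.MP_27623f_ag.SymbolicAlgebra
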